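import Pool.Agent.Helper10.NCP.Final2

open Pool.Agent.Helper10.NCP

namespace Pool.Agent.Results.MP_13b5d9_gt.NoProductCover

/-- There is a closed orientable surface `M` of genus at least two and a Riemannian metric without
conjugate points on `M × S¹` (induced by an immersion in `ℝ¹⁰`) such that the `ℤ`-cover `M × ℝ` is
not isometric to `(M, g₁) × (ℝ, dt²)` for any Riemannian metric `g₁` on `M`; moreover no covering
space of `M × S¹` at all is a Riemannian direct product of a closed surface and a line. -/
theorem result : ∃ (M : Set V) (ι : V × (ℝ × ℝ) → EuclideanSpace ℝ (Fin 10)),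
    (IsClosedSurface M ∧ GenusAtLeastTwo M) ∧ IsImmersionOn (M ×ˢ circ) ι ∧
    NoConjugatePoints (M ×ˢ circ) ι ∧ ¬ IsRiemannianProduct M (ι ∘ cov) ∧
    ¬ IsCoveredByProduct (M ×ˢ circ) ι :=
  ⟨surf, imm, ⟨surf_closed, surf_betti⟩, imm_on, no_conj, not_product, not_covered⟩

end Pool.Agent.Results.MP_13b5d9_gt.NoProductCover
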